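import Pool.Graph.R_pool_sql_team_seeded_63374d34.N232.SPC.VAR
import Pool.Graph.R_pool_sql_team_seeded_63374d34.N232.SPC.SEP
import Pool.Graph.R_pool_sql_team_seeded_63374d34.N232.SPC.STEP
import Pool.Graph.R_pool_sql_team_seeded_63374d34.N92.SPC.FAM
import Pool.Graph.R_pool_sql_team_seeded_63374d34.N862.SPC.CT
import Pool.Graph.R_pool_sql_team_seeded_63374d34.N755.SPC.CNT
import Pool.Graph.R_pool_sql_team_seeded_63374d34.N437.SPC.STR

/-!
# The number of sets of small doubling, from the container theorem of the library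
-/

set_option autoImplicit false

open Finset
open scoped Pointwise

namespace Pool.Agent.H602.TY

open Pool.Agent.N437.SPC

theorem hCT : S_CT :=
  Pool.Agent.N862.SPC.t_CT (Pool.Agent.N92.SPC.t_FAM (Pool.Agent.N232.SPC.t_STEP
    (Pool.Agent.N232.SPC.t_SEP Pool.Agent.N232.SPC.t_VAR)))

/-- the number of sets of small doubling (adapted from the proof of STR of the library) -/
theorem count_all (δ : ℝ) (hδ : 0 < δ) : ∃ c : ℝ, 0 < c ∧ ∃ n₀ : ℕ,
    ∀ {Γ : Type} [AddCommGroup Γ] [DecidableEq Γ] (X : Finset Γ) (n : ℕ) (K : ℝ),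
      n₀ ≤ n → Real.log X.card ≤ (n : ℝ) ^ c → 1 ≤ K → K ≤ (n : ℝ) ^ (1 - δ) →
      (((X.powersetCard n).filter (fun A => ((A + A).card : ℝ) ≤ K * n)).card : ℝ) ≤
        (4 * Real.exp 1 ^ 2 * K) ^ n := by
  obtain ⟨c, hc, hc1, n₀, hct⟩ := hCT 1 δ hδ
  refine ⟨c / 2, half_pos hc, max (max n₀ 3) ⌈(7 : ℝ) ^ (2 / c)⌉₊, ?_⟩
  intro Γ _ _ X n K hn hX hK1 hK
  have hnn : n₀ ≤ n := le_trans (le_trans (le_max_left _ _) (le_max_left _ _)) hn
  have hn3 : 3 ≤ n := le_trans (le_trans (le_max_right _ _) (le_max_left _ _)) hn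
  have hn3' : (3 : ℝ) ≤ n := by exact_mod_cast hn3
  have hn1 : (1 : ℝ) ≤ n := by linarith
  have hn0 : (0 : ℝ) < n := by linarith
  have hK0 : 0 < K := by linarith
  have h7 : 7 ≤ (n : ℝ) ^ (c / 2) := by
    have e1 : (7 : ℝ) ^ (2 / c) ≤ n :=
      (Nat.le_ceil _).trans (by exact_mod_cast (le_max_right _ _).trans hn)
    have e2 : ((7 : ℝ) ^ (2 / c)) ^ (c / 2) = 7 := by
      rw [← Real.rpow_mul (by norm_num)]
      have : 2 / c * (c / 2) = 1 := by field_simp
      rw [this, Real.rpow_one]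
    rw [← e2]
    exact Real.rpow_le_rpow (by positivity) e1 (by positivity)
  have h49 := Pool.Agent.N687.SPCMain.half_part n c hn3 h7
  set M : ℝ := 2 * K * n with hM
  have hnM : (n : ℝ) ≤ M := by
    rw [hM]
    nlinarith
  set f : Fin 1 → Γ → Γ → Γ := fun _ a b => a + b with hf
  have hOp : ∀ i, Op (f i) X := fun i =>
    ⟨fun x _ y _ => add_comm x y, fun x _ y _ z _ h => add_left_cancel (h : x + y = x + z)⟩
  have hlogX : Real.log X.card ≤ (n : ℝ) ^ c :=
    hX.trans (Real.rpow_le_rpow_of_exponent_le hn1 (by linarith))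
  obtain ⟨F, hF1, hF2, hF3⟩ := hct f X n hnn hlogX hOp
  set D : ℕ := ⌊(n : ℝ) ^ (1 - c)⌋₊ + 1 with hD
  have hDu : (D : ℝ) ≤ (n : ℝ) ^ (1 - c) + 1 := by
    rw [hD]
    push_cast
    have := Nat.floor_le (show (0 : ℝ) ≤ (n : ℝ) ^ (1 - c) by positivity)
    linarith
  have h2D : 2 * D ≤ n := by
    have : (2 * D : ℝ) ≤ n := by linarith
    exact_mod_cast this
  set F' := F.filter (fun Y => (Y.card : ℝ) ≤ M) with hF'
  have hsub : (X.powersetCard n).filter (fun A => ((A + A).card : ℝ) ≤ K * n) ⊆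
      (X.powersetCard n).filter (fun A => ∃ Y ∈ F', (A \ Y).card ≤ D) := by
    intro A hA
    rw [mem_filter, mem_powersetCard] at hA
    obtain ⟨⟨hAX, hAn⟩, hAA⟩ := hA
    have hW : ∀ i, ((Finset.image₂ (f i) A A).card : ℝ) ≤ (n : ℝ) ^ (2 - δ) := by
      intro i
      have e1 : Finset.image₂ (f i) A A = A + A := rfl
      rw [e1]
      refine hAA.trans ?_
      have e2 : (n : ℝ) ^ (2 - δ) = (n : ℝ) ^ (1 - δ) * n := by
        nth_rewrite 3 [← Real.rpow_one (n : ℝ)]
        rw [← Real.rpow_add hn0]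
        congr 1
        ring
      rw [e2]
      exact mul_le_mul_of_nonneg_right hK hn0.le
    obtain ⟨Y, hYF, hY1, hY2⟩ := hF3 A hAX (by omega) hAn.le hW
    have hY20 : 99 * Y.card ≤ 100 * (gd (fun a b : Γ => a + b) Y (A + A)).card := (hY2 0).1
    have hYM : (Y.card : ℝ) ≤ M := by
      rcases Nat.eq_zero_or_pos Y.card with h0 | h0
      · rw [h0]
        have : (0 : ℝ) ≤ M := by positivity
        simpa using this
      have hGne : 0 < (gd (fun a b : Γ => a + b) Y (A + A)).card := by omega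
      obtain ⟨y, hy⟩ := Finset.card_pos.1 hGne
      have hy2 : 97 * Y.card ≤ 100 * cnt (fun a b : Γ => a + b) y Y (A + A) := by
        exact (Finset.mem_filter.1 hy).2
      have hy3 := cnt_le y Y (A + A)
      have hYW : 97 * Y.card ≤ 100 * (A + A).card := by omega
      have hYW' : 97 * (Y.card : ℝ) ≤ 100 * (A + A).card := by exact_mod_cast hYW
      rw [hM]
      nlinarith
    rw [Finset.mem_filter, Finset.mem_powersetCard]
    refine ⟨⟨hAX, hAn⟩, Y, Finset.mem_filter.2 ⟨hYF, hYM⟩, ?_⟩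
    have e2 : (A \ Y).card ≤ ⌊(n : ℝ) ^ (1 - c)⌋₊ := Nat.le_floor hY1
    omega
  have hc2 := Pool.Agent.N755.SPC.t_CNT X F' n D M (by omega) h2D
    (fun Y hY => (Finset.mem_filter.1 hY).2) (by linarith)
  have hFc : (F'.card : ℝ) ≤ Real.exp ((n : ℝ) ^ (1 - c)) := by
    refine le_trans ?_ hF1
    exact_mod_cast Finset.card_le_card (Finset.filter_subset _ _)
  have hexp := Pool.Agent.N687.SPCMain.exp_part n D X.card _ c hc hc1 hn3 h7 hDu hX hFc
  have hMn : 2 * Real.exp 1 * M / n = 4 * Real.exp 1 * K := by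
    rw [hM]
    field_simp
    ring
  have hM0 : 0 ≤ M := hn0.le.trans hnM
  have hcard : (((X.powersetCard n).filter (fun A => ((A + A).card : ℝ) ≤ K * n)).card : ℝ) ≤
      (((X.powersetCard n).filter (fun A => ∃ Y ∈ F', (A \ Y).card ≤ D)).card : ℝ) := by
    exact_mod_cast card_le_card hsub
  calc _ ≤ _ := hcard
    _ ≤ _ := hc2
    _ ≤ Real.exp n * (2 * Real.exp 1 * M / n) ^ n := by gcongr
    _ = (4 * Real.exp 1 ^ 2 * K) ^ n := by
        rw [show Real.exp n = Real.exp 1 ^ n by rw [← Real.exp_nat_mul, mul_one], ← mul_pow, hMn]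
        congr 1
        ring

end Pool.Agent.H602.TY
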