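import Pool.Agent.H602.MD.Model

/-!
# Sets of small doubling in torsion-free groups, as sets of integers in a short interval
-/

set_option autoImplicit false

open Finset
open scoped Pointwise

namespace Pool.Agent.H602.TY

open Pool.Agent.H602.MD

/-- the least non-negative residues -/
def up {G : Type*} {m : ℕ} (φ : G → ZMod m) (a : G) : ℤ := ((φ a).val : ℤ)

theorem up_cast {G : Type*} {m : ℕ} [NeZero m] (φ : G → ZMod m) (a : G) :
    ((up φ a : ℤ) : ZMod m) = φ a := by
  unfold up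
  rw [Int.cast_natCast, ZMod.natCast_zmod_val]

theorem up_mem {G : Type*} {m : ℕ} [NeZero m] (φ : G → ZMod m) (a : G) :
    0 ≤ up φ a ∧ up φ a < m := by
  unfold up
  have := ZMod.val_lt (φ a)
  constructor
  · positivity
  · exact_mod_cast this

/-- the number of sums of residues -/
theorem card_up {G : Type*} [DecidableEq G] {m : ℕ} [NeZero m] (φ : G → ZMod m) (A : Finset G) :
    (A.image (up φ) + A.image (up φ)).card ≤ 2 * (A.image φ + A.image φ).card := by
  classical
  rw [mul_comm, ← card_range 2, ← card_product]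
  refine card_le_card_of_injOn (fun z : ℤ => ((z : ZMod m), (z / (m : ℤ)).toNat)) ?_ ?_
  · intro z hz
    obtain ⟨x, hx, y, hy, rfl⟩ := mem_add.1 (mem_coe.1 hz)
    obtain ⟨a, ha, rfl⟩ := mem_image.1 hx
    obtain ⟨b, hb, rfl⟩ := mem_image.1 hy
    have ha' := up_mem φ a
    have hb' := up_mem φ b
    have hm : (0 : ℤ) < m := by exact_mod_cast Nat.pos_of_ne_zero (NeZero.ne m)
    rw [mem_coe, mem_product]
    constructor
    · simp only
      rw [Int.cast_add, up_cast, up_cast]
      exact add_mem_add (mem_image_of_mem _ ha) (mem_image_of_mem _ hb)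
    · simp only
      rw [mem_range]
      have h1 : (up φ a + up φ b) / (m : ℤ) < 2 := by
        apply Int.ediv_lt_of_lt_mul hm
        linarith
      have h2 : 0 ≤ (up φ a + up φ b) / (m : ℤ) := Int.ediv_nonneg (by linarith) hm.le
      omega
  · intro z hz z' hz' he
    obtain ⟨x, hx, y, hy, rfl⟩ := mem_add.1 (mem_coe.1 hz)
    obtain ⟨x', hx', y', hy', rfl⟩ := mem_add.1 (mem_coe.1 hz')
    obtain ⟨a, ha, rfl⟩ := mem_image.1 hx
    obtain ⟨b, hb, rfl⟩ := mem_image.1 hy
    obtain ⟨a', ha', rfl⟩ := mem_image.1 hx'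
    obtain ⟨b', hb', rfl⟩ := mem_image.1 hy'
    have u1 := up_mem φ a
    have u2 := up_mem φ b
    have u3 := up_mem φ a'
    have u4 := up_mem φ b'
    have hm : (0 : ℤ) < m := by exact_mod_cast Nat.pos_of_ne_zero (NeZero.ne m)
    simp only [Prod.mk.injEq] at he
    obtain ⟨h1, h2⟩ := he
    have h3 : 0 ≤ (up φ a + up φ b) / (m : ℤ) := Int.ediv_nonneg (by linarith) hm.le
    have h4 : 0 ≤ (up φ a' + up φ b') / (m : ℤ) := Int.ediv_nonneg (by linarith) hm.le
    have h5 : (up φ a + up φ b) / (m : ℤ) = (up φ a' + up φ b') / (m : ℤ) := by omega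
    rw [ZMod.intCast_eq_intCast_iff] at h1
    have h6 : (up φ a + up φ b) % (m : ℤ) = (up φ a' + up φ b') % (m : ℤ) := h1
    have h7 := Int.emod_add_mul_ediv (up φ a + up φ b) m
    have h8 := Int.emod_add_mul_ediv (up φ a' + up φ b') m
    rw [h6, h5] at h7
    linarith

/-- the set of integers -/
theorem lift {G : Type*} [AddCommGroup G] [DecidableEq G]
    (htf : ∀ (n : ℕ) (x : G), n ≠ 0 → n • x = 0 → x = 0) {K : ℝ} {A : Finset G} (hA : A.Nonempty)
    (hK : ((A + A).card : ℝ) ≤ K * A.card) :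
    ∃ (m : ℕ) (φ : G → ZMod m), 0 < m ∧ (m : ℝ) ≤ (2 * K) ^ 100000 * A.card ∧ IsoN 2 A φ ∧
      (A.image (up φ)).card = A.card ∧
      (A.image (up φ) + A.image (up φ)).card ≤ 2 * (A + A).card ∧
      (∀ x ∈ A.image (up φ), 0 ≤ x ∧ x < m) ∧
      (A.image (up φ)).image (fun x : ℤ => (x : ZMod m)) = A.image φ := by
  obtain ⟨m, φ, hm, hm1, hφ⟩ := model htf (n := 2) le_rfl hA hK
  have : NeZero m := ⟨hm.ne'⟩
  refine ⟨m, φ, hm, by simpa using hm1, hφ, ?_, ?_, ?_, ?_⟩
  · apply card_image_of_injOn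
    intro a ha b hb h
    apply IsoN.inj le_rfl hφ (mem_coe.1 ha) (mem_coe.1 hb)
    rw [← up_cast φ a, ← up_cast φ b, h]
  · exact (card_up φ A).trans (Nat.mul_le_mul_left 2 (hφ.card_sum (n := 2) le_rfl))
  · intro x hx
    obtain ⟨a, -, rfl⟩ := mem_image.1 hx
    exact up_mem φ a
  · rw [image_image]
    apply image_congr
    intro a _
    exact up_cast φ a

/-- a quarter of the interval -/
theorem quarter {G : Type*} [AddCommGroup G] [DecidableEq G] {m : ℕ} (hm : 0 < m) {φ : G → ZMod m}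
    {A : Finset G} (hφ : IsoN 2 A φ) {B : Finset ℤ} (hB : B ⊆ A.image (up φ)) :
    ∃ (A' : Finset G) (B' : Finset ℤ), A' ⊆ A ∧ B' ⊆ B ∧ B.card ≤ 4 * A'.card ∧
      IsAddFreimanIso 2 (A' : Set G) (B' : Set ℤ) (up φ) := by
  classical
  have : NeZero m := ⟨hm.ne'⟩
  have hmz : (0 : ℤ) < m := by exact_mod_cast hm
  -- the quarters
  have hmaps : ∀ x ∈ B, (4 * x / (m : ℤ)).toNat ∈ range 4 := by
    intro x hx
    obtain ⟨a, -, rfl⟩ := mem_image.1 (hB hx)
    have := up_mem φ a
    rw [mem_range]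
    have h1 : (4 * up φ a) / (m : ℤ) < 4 := by
      apply Int.ediv_lt_of_lt_mul hmz
      linarith
    have h2 : 0 ≤ (4 * up φ a) / (m : ℤ) := Int.ediv_nonneg (by linarith) hmz.le
    omega
  obtain ⟨j, hj, hcard⟩ : ∃ j ∈ range 4, B.card ≤ 4 * (B.filter (fun x => (4 * x / (m : ℤ)).toNat = j)).card := by
    by_contra hcon
    push Not at hcon
    have h1 := card_eq_sum_card_fiberwise (f := fun x : ℤ => (4 * x / (m : ℤ)).toNat) (s := B)
      (t := range 4) (fun x hx => mem_coe.2 (hmaps x (mem_coe.1 hx)))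
    have h2 : 4 * ∑ b ∈ range 4, (B.filter (fun x => (4 * x / (m : ℤ)).toNat = b)).card < 4 * B.card := by
      rw [mul_sum]
      calc ∑ i ∈ range 4, 4 * (B.filter (fun x => (4 * x / (m : ℤ)).toNat = i)).card
          < ∑ i ∈ range 4, B.card := sum_lt_sum_of_nonempty ⟨0, by simp⟩ fun i hi => hcon i hi
        _ = 4 * B.card := by rw [sum_const, card_range, smul_eq_mul]
    rw [← h1] at h2
    exact lt_irrefl _ h2
  set B' := B.filter (fun x => (4 * x / (m : ℤ)).toNat = j) with hB'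
  set A' := A.filter (fun a => up φ a ∈ B') with hA'
  have himg : A'.image (up φ) = B' := by
    ext x
    rw [mem_image]
    constructor
    · rintro ⟨a, ha, rfl⟩
      exact (mem_filter.1 ha).2
    · intro hx
      obtain ⟨a, ha, rfl⟩ := mem_image.1 (hB (mem_filter.1 hx).1)
      exact ⟨a, mem_filter.2 ⟨ha, hx⟩, rfl⟩
  have hinj : Set.InjOn (up φ) (A' : Set G) := by
    intro a ha b hb h
    apply IsoN.inj le_rfl hφ (mem_filter.1 (mem_coe.1 ha)).1 (mem_filter.1 (mem_coe.1 hb)).1
    rw [← up_cast φ a, ← up_cast φ b, h]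
  have hA'B' : A'.card = B'.card := by rw [← himg, card_image_of_injOn hinj]
  have hin : ∀ a ∈ A', (j : ℤ) * m ≤ 4 * up φ a ∧ 4 * up φ a < (j + 1) * m := by
    intro a ha
    have h1 := (mem_filter.1 (mem_filter.1 ha).2).2
    have := up_mem φ a
    have h2 : 0 ≤ (4 * up φ a) / (m : ℤ) := Int.ediv_nonneg (by linarith) hmz.le
    have h3 : (4 * up φ a) / (m : ℤ) = j := by omega
    have h4 := Int.emod_add_mul_ediv (4 * up φ a) m
    have h5 := Int.emod_nonneg (4 * up φ a) hmz.ne'
    have h6 := Int.emod_lt_of_pos (4 * up φ a) hmz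
    rw [h3] at h4
    constructor <;> nlinarith
  refine ⟨A', B', filter_subset _ _, filter_subset _ _, by rw [hA'B']; exact hcard, ?_⟩
  rw [isAddFreimanIso_two]
  refine ⟨?_, ?_⟩
  · rw [← himg, coe_image]
    exact hinj.bijOn_image
  · intro a ha b hb c hc d hd
    have ha' := hin a (mem_coe.1 ha)
    have hb' := hin b (mem_coe.1 hb)
    have hc' := hin c (mem_coe.1 hc)
    have hd' := hin d (mem_coe.1 hd)
    rw [← hφ.two le_rfl (mem_filter.1 (mem_coe.1 ha)).1 (mem_filter.1 (mem_coe.1 hb)).1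
      (mem_filter.1 (mem_coe.1 hc)).1 (mem_filter.1 (mem_coe.1 hd)).1]
    constructor
    · intro h
      rw [← up_cast φ a, ← up_cast φ b, ← up_cast φ c, ← up_cast φ d, ← Int.cast_add, h,
        Int.cast_add]
    · intro h
      rw [← up_cast φ a, ← up_cast φ b, ← up_cast φ c, ← up_cast φ d, ← Int.cast_add,
        ← Int.cast_add, ZMod.intCast_eq_intCast_iff_dvd_sub] at h
      have h0 : up φ c + up φ d - (up φ a + up φ b) = 0 := by
        apply Int.eq_zero_of_abs_lt_dvd h
        rw [abs_lt]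
        constructor <;> nlinarith
      linarith

end Pool.Agent.H602.TY
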