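import Pool.Agent.H602.MD.Cnt

/-!
# The number of isomorphism types of sets of small doubling: the lower bound
-/

set_option autoImplicit false

open Finset
open scoped Pointwise

namespace Pool.Agent.H602.TY

open Pool.Agent.H602.MD

theorem lower_types {K : ℝ} {N : ℕ} (hK : 64 ≤ K) (hKN : 8 * K ≤ N)
    {ι : Type*} [Fintype ι] {H : ι → Type*} [∀ i, AddCommGroup (H i)] (B : ∀ i, Set (H i))
    (hB : ∀ A : Finset ℤ, A.card = N → ((A + A).card : ℝ) ≤ K * A.card →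
      ∃ (i : ι) (φ : ℤ → H i), IsAddFreimanIso 2 (A : Set ℤ) (B i) φ) :
    ∃ S : ℕ, (S : ℝ) ^ 2 ≤ K * N / 2 ∧ 4 * S ≤ N ∧
      (K / 4) ^ (N - 2 * S) ≤ 2 * (Fintype.card ι : ℝ) := by
  have hN0 : (512 : ℝ) ≤ N := by linarith
  have hNpos : (0 : ℝ) < N := by linarith
  set x : ℝ := K * N / 2 with hx
  have hx1 : 16384 ≤ x := by
    rw [hx]
    nlinarith
  set S := Nat.sqrt ⌊x⌋₊ with hS
  have hS1 : (S : ℝ) ^ 2 ≤ x := by
    have h1 : S * S ≤ ⌊x⌋₊ := Nat.sqrt_le ⌊x⌋₊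
    have h2 : ((S * S : ℕ) : ℝ) ≤ ⌊x⌋₊ := by exact_mod_cast h1
    have h3 := Nat.floor_le (a := x) (by linarith)
    push_cast at h2
    nlinarith
  have hS2 : x - 1 < ((S : ℝ) + 1) ^ 2 := by
    have h1 : ⌊x⌋₊ < (S + 1) * (S + 1) := Nat.lt_succ_sqrt ⌊x⌋₊
    have h2 : (⌊x⌋₊ : ℝ) < (((S + 1) * (S + 1) : ℕ) : ℝ) := by exact_mod_cast h1
    have h3 := Nat.sub_one_lt_floor x
    push_cast at h2
    nlinarith
  have hSnn : (0 : ℝ) ≤ S := Nat.cast_nonneg _
  have hS126 : (126 : ℝ) ≤ S := by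
    by_contra hcon
    push Not at hcon
    have : ((S : ℝ) + 1) ^ 2 < 127 ^ 2 := by nlinarith
    linarith
  have hS126' : 126 ≤ S := by exact_mod_cast hS126
  have hSx : 128 * (S : ℝ) ≤ x := by
    by_contra hcon
    push Not at hcon
    rcases le_or_gt (S : ℝ) 128 with h | h
    · linarith
    · nlinarith
  have hSN : 4 * (S : ℝ) ≤ N := by
    by_contra hcon
    push Not at hcon
    have h1 : (N : ℝ) ^ 2 < 16 * (S : ℝ) ^ 2 := by nlinarith
    have h2 : 16 * x ≤ (N : ℝ) ^ 2 := by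
      rw [hx]
      nlinarith
    linarith
  have hSN' : 4 * S ≤ N := by exact_mod_cast hSN
  obtain ⟨s, hs⟩ : ∃ s : ℕ, S = s + 1 := ⟨S - 1, by omega⟩
  have hsR : (S : ℝ) = s + 1 := by exact_mod_cast hs
  have hs1 : 1 ≤ s := by omega
  have hbc := base_card_le hs1
  have hbN : 2 * (base s).card ≤ N := by omega
  set k := N - (base s).card with hk
  have hcount := lower_count hs1 (show (base s).card + k = N by omega) B (fun A hA hAA => by
    apply hB A hA
    have h1 : ((A + A).card : ℝ) ≤ 2 * (s : ℝ) ^ 2 + 1 := by exact_mod_cast hAA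
    refine h1.trans ?_
    rw [hA, show K * (N : ℝ) = 2 * x by rw [hx]; ring]
    have h2 : (s : ℝ) = S - 1 := by linarith
    rw [h2]
    nlinarith)
  have hU : ((s : ℝ) - 1) ^ 2 ≤ (((Icc 0 ((s : ℤ) ^ 2)) \ base s).card : ℝ) := by
    have h1 : ((Icc 0 ((s : ℤ) ^ 2)) \ base s).card = s ^ 2 + 1 - (base s).card := by
      rw [card_sdiff_of_subset base_sub, Int.card_Icc]
      congr 1
    rw [h1]
    have h2 : (base s).card ≤ s ^ 2 + 1 := by nlinarith
    rw [Nat.cast_sub h2]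
    have h3 : ((base s).card : ℝ) ≤ 2 * s := by exact_mod_cast hbc
    push_cast
    nlinarith
  set u := ((Icc 0 ((s : ℤ) ^ 2)) \ base s).card with hu
  set b := u / N with hb
  have hbR : K / 4 ≤ b := by
    have h1 : (u : ℝ) < N * (b + 1) := by
      have : u < N * (u / N + 1) := Nat.lt_mul_div_succ u (by exact_mod_cast hNpos)
      exact_mod_cast this
    have h2 : x - 6 * S ≤ ((s : ℝ) - 1) ^ 2 := by
      have : (s : ℝ) - 1 = S - 2 := by linarith
      rw [this]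
      nlinarith
    have h3 : (15 / 16) * x < N * (b + 1) := by
      have : 6 * (S : ℝ) ≤ (6 / 128) * x := by linarith
      linarith
    have h4 : (15 / 32) * K < b + 1 := by
      have : N * ((15 / 32) * K) < N * ((b : ℝ) + 1) := by
        rw [hx] at h3
        linarith
      exact lt_of_mul_lt_mul_left this hNpos.le
    linarith
  have hb1 : 1 ≤ (b : ℝ) := by linarith
  have hkb : k * b ≤ u := by
    calc k * b ≤ N * b := Nat.mul_le_mul_right b (by omega)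
      _ ≤ u := Nat.mul_div_le u N
  have h1 : b ^ k ≤ 2 * Fintype.card ι :=
    (pow_le_choose' b k).trans ((Nat.choose_le_choose k hkb).trans hcount)
  have h2 : ((b : ℝ)) ^ k ≤ 2 * (Fintype.card ι : ℝ) := by exact_mod_cast h1
  have h3 : (b : ℝ) ^ (N - 2 * S) ≤ (b : ℝ) ^ k := pow_le_pow_right₀ hb1 (by omega)
  exact ⟨S, hS1, hSN', (pow_le_pow_left₀ (by linarith) hbR _).trans (h3.trans h2)⟩

theorem numeric {δ : ℝ} (hδ : 0 < δ) (hδ1 : δ ≤ 1) {n : ℕ}
    (hn : (16 / δ) ^ (4 / δ) ≤ (n : ℝ)) {K : ℝ} (hK : 64 ≤ K) (hK2 : K ≤ (n : ℝ) ^ (1 - δ)) :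
    8 * K ≤ n ∧ ∀ S : ℕ, (S : ℝ) ^ 2 ≤ K * n / 2 → 2 * (K / 4) ^ (2 * S) ≤ 2 ^ n := by
  have hδ' : 16 ≤ 16 / δ := by
    rw [le_div_iff₀ hδ]
    linarith
  have h4 : 16 / δ ≤ (n : ℝ) ^ (δ / 4) := by
    have e : ((16 / δ) ^ (4 / δ)) ^ (δ / 4) = 16 / δ := by
      rw [← Real.rpow_mul (by positivity)]
      have : 4 / δ * (δ / 4) = 1 := by field_simp
      rw [this, Real.rpow_one]
    rw [← e]
    exact Real.rpow_le_rpow (by positivity) hn (by positivity)
  have hn1 : (1 : ℝ) ≤ n := by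
    have h1 : (1 : ℝ) ≤ (16 / δ) ^ (4 / δ) := Real.one_le_rpow (by linarith) (by positivity)
    exact h1.trans hn
  have hn0 : (0 : ℝ) < n := by linarith
  set y : ℝ := (n : ℝ) ^ (δ / 4) with hy
  have hy16 : 16 ≤ y := hδ'.trans h4
  have hy0 : 0 < y := by linarith
  have e1 : (n : ℝ) ^ (1 - δ) * y ^ 4 = n := by
    rw [hy, ← Real.rpow_natCast, ← Real.rpow_mul hn0.le, ← Real.rpow_add hn0]
    have : 1 - δ + δ / 4 * ((4 : ℕ) : ℝ) = 1 := by push_cast; ring
    rw [this, Real.rpow_one]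
  set r : ℝ := (n : ℝ) ^ (1 - δ / 2) with hr
  have hr0 : 0 < r := by positivity
  have e2 : r * y ^ 2 = n := by
    rw [hr, hy, ← Real.rpow_natCast, ← Real.rpow_mul hn0.le, ← Real.rpow_add hn0]
    have : 1 - δ / 2 + δ / 4 * ((2 : ℕ) : ℝ) = 1 := by push_cast; ring
    rw [this, Real.rpow_one]
  have e3 : r ^ 2 = (n : ℝ) ^ (1 - δ) * n := by
    rw [hr, ← Real.rpow_natCast, ← Real.rpow_mul hn0.le]
    nth_rewrite 3 [← Real.rpow_one (n : ℝ)]
    rw [← Real.rpow_add hn0]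
    congr 1
    push_cast
    ring
  have hq0 : (0 : ℝ) < (n : ℝ) ^ (1 - δ) := by positivity
  have hy4 : 16 ^ 4 ≤ y ^ 4 := pow_le_pow_left₀ (by norm_num) hy16 4
  have h8 : 8 * K ≤ n := by
    rw [← e1]
    nlinarith
  have hn16 : (64 : ℝ) ≤ n := by linarith
  refine ⟨h8, fun S hS => ?_⟩
  have hSr : (S : ℝ) ≤ r := by
    have h1 : (S : ℝ) ^ 2 ≤ r ^ 2 := by
      rw [e3]
      nlinarith
    exact (pow_le_pow_iff_left₀ (Nat.cast_nonneg S) hr0.le (by norm_num)).1 h1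
  have hKn : K / 4 ≤ n := by linarith
  have hlog : Real.log (K / 4) ≤ y / (δ / 4) := by
    refine (Real.log_le_log (by linarith) hKn).trans ?_
    exact Real.log_le_rpow_div hn0.le (by linarith)
  have hlog0 : 0 ≤ Real.log (K / 4) := Real.log_nonneg (by linarith)
  have h5 : y / (δ / 4) ≤ y * y / 4 := by
    have : y / (δ / 4) = y * (16 / δ) / 4 := by
      field_simp
      ring
    rw [this]
    have := mul_le_mul_of_nonneg_left h4 hy0.le
    linarith
  have h6 : 2 * (S : ℝ) * Real.log (K / 4) ≤ n / 2 := by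
    calc 2 * (S : ℝ) * Real.log (K / 4) ≤ 2 * r * (y * y / 4) :=
          mul_le_mul (by linarith) (hlog.trans h5) hlog0 (by positivity)
      _ = r * y ^ 2 / 2 := by ring
      _ = n / 2 := by rw [e2]
  have hl2 := Real.log_two_gt_d9
  rw [← Real.log_le_log_iff (by positivity) (by positivity), Real.log_mul (by norm_num)
    (by positivity), Real.log_pow, Real.log_pow]
  push_cast
  have hl3 := Real.log_two_lt_d9
  nlinarith

/-- **the lower bound** -/
theorem lower_final {δ : ℝ} (hδ : 0 < δ) (hδ1 : δ ≤ 1) {n : ℕ}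
    (hn : (16 / δ) ^ (4 / δ) ≤ (n : ℝ)) {K : ℝ} (hK : 2 ≤ K) (hK2 : K ≤ (n : ℝ) ^ (1 - δ))
    {ι : Type*} [Fintype ι] {H : ι → Type*} [∀ i, AddCommGroup (H i)] (B : ∀ i, Set (H i))
    (hB : ∀ A : Finset ℤ, A.card = n → ((A + A).card : ℝ) ≤ K * n →
      ∃ (i : ι) (φ : ℤ → H i), IsAddFreimanIso 2 (A : Set ℤ) (B i) φ) :
    (K / 64) ^ n ≤ (Fintype.card ι : ℝ) := by
  rcases lt_or_ge K 64 with h | h
  · have h1 : (K / 64) ^ n ≤ 1 := pow_le_one₀ (by linarith) (by linarith)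
    refine h1.trans ?_
    obtain ⟨i, -, -⟩ := hB (Ico 0 (n : ℤ)) (by rw [Int.card_Ico]; omega) (by
      have h2 : (Ico 0 (n : ℤ) + Ico 0 (n : ℤ)) ⊆ Ico 0 (2 * (n : ℤ)) := by
        intro z hz
        obtain ⟨x, hx, y, hy, rfl⟩ := mem_add.1 hz
        rw [mem_Ico] at hx hy ⊢
        constructor <;> linarith
      have h3 := card_le_card h2
      rw [Int.card_Ico] at h3
      have h4 : ((Ico 0 (n : ℤ) + Ico 0 (n : ℤ)).card : ℝ) ≤ 2 * n := by
        have : (Ico 0 (n : ℤ) + Ico 0 (n : ℤ)).card ≤ 2 * n := by omega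
        exact_mod_cast this
      have hn0 : (0 : ℝ) ≤ n := Nat.cast_nonneg n
      nlinarith)
    have : 0 < Fintype.card ι := Fintype.card_pos_iff.2 ⟨i⟩
    exact_mod_cast this
  · obtain ⟨h8, hnum⟩ := numeric hδ hδ1 hn h hK2
    obtain ⟨S, hS1, hS2, hS3⟩ := lower_types h h8 B (fun A hA hAA => hB A hA (by rwa [hA] at hAA))
    have h1 := hnum S hS1
    have hK4 : 1 ≤ K / 4 := by linarith
    have h2 : (K / 4) ^ n = (K / 4) ^ (n - 2 * S) * (K / 4) ^ (2 * S) := by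
      rw [← pow_add]
      congr 1
      omega
    have h3 : (K / 8) ^ n * 2 ^ n = (K / 4) ^ n := by
      rw [← mul_pow]
      congr 1
      ring
    have h4 : (K / 64) ^ n ≤ (K / 8) ^ n := pow_le_pow_left₀ (by linarith) (by linarith) n
    refine h4.trans ?_
    have h5 : (0 : ℝ) < (K / 4) ^ (2 * S) := by positivity
    have h6 : (K / 8) ^ n * (2 * (K / 4) ^ (2 * S)) ≤
        Fintype.card ι * (2 * (K / 4) ^ (2 * S)) := by
      calc (K / 8) ^ n * (2 * (K / 4) ^ (2 * S)) ≤ (K / 8) ^ n * 2 ^ n :=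
            mul_le_mul_of_nonneg_left h1 (by positivity)
        _ = (K / 4) ^ (n - 2 * S) * (K / 4) ^ (2 * S) := by rw [h3, h2]
        _ ≤ (2 * (Fintype.card ι : ℝ)) * (K / 4) ^ (2 * S) :=
            mul_le_mul_of_nonneg_right hS3 h5.le
        _ = Fintype.card ι * (2 * (K / 4) ^ (2 * S)) := by ring
    exact le_of_mul_le_mul_right h6 (by positivity)

end Pool.Agent.H602.TY
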