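import Pool.Agent.H602.TY.Lift
import Pool.Agent.H602.TY.Count
import Pool.Graph.R_pool_sql_team_seeded_63374d34.Results.MP_86f7a7_co.AlmostAllSets

/-!
# Isomorphism types of sets of small doubling
-/

set_option autoImplicit false

open Finset
open scoped Pointwise

namespace Pool.Agent.H602.TY

open Pool.Agent.H602.MD
open Pool.Agent.Results.MP_86f7a7_co.AlmostAllSets (Dense Proper prog)

universe u

/-- a set of residues -/
abbrev Typ : Type := Σ m : ℕ, Finset (ZMod m)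

/-- `A` is isomorphic (order 2) to the set of residues -/
def Has {G : Type u} [AddCommGroup G] (A : Finset G) (q : Typ) : Prop :=
  ∃ φ : G → ZMod q.1, IsAddFreimanIso 2 (A : Set G) (q.2 : Set (ZMod q.1)) φ

/-- the bound for the modulus -/
noncomputable def bnd (n : ℕ) (K : ℝ) : ℕ := ⌊(2 * K) ^ 100000 * n⌋₊

open Classical in
/-- the types with a representative in `E` -/
noncomputable def fam (M : ℕ) (E : Finset (Finset ℤ)) : Finset Typ :=
  (Icc 1 M ×ˢ E).image fun p => ⟨p.1, p.2.image (fun x : ℤ => (x : ZMod p.1))⟩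

theorem fam_card (M : ℕ) (E : Finset (Finset ℤ)) : (fam M E).card ≤ M * E.card := by
  unfold fam
  refine card_image_le.trans ?_
  rw [card_product, Nat.card_Icc]
  simp

theorem logM {c : ℝ} (hc : 0 < c) {n : ℕ} (hn2 : 2 ≤ n) (hn : (400004 / c) ^ (2 / c) ≤ (n : ℝ))
    {K : ℝ} (hK : 1 ≤ K) (hKn : K ≤ n) : Real.log (bnd n K) ≤ (n : ℝ) ^ c := by
  have hnR : (2 : ℝ) ≤ n := by exact_mod_cast hn2
  have hn0 : (0 : ℝ) < n := by linarith
  have h1 : 400004 / c ≤ (n : ℝ) ^ (c / 2) := by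
    have e : ((400004 / c) ^ (2 / c)) ^ (c / 2) = 400004 / c := by
      rw [← Real.rpow_mul (by positivity)]
      have : 2 / c * (c / 2) = 1 := by field_simp
      rw [this, Real.rpow_one]
    rw [← e]
    exact Real.rpow_le_rpow (by positivity) hn (by positivity)
  have h2 : (bnd n K : ℝ) ≤ (n : ℝ) ^ 200002 := by
    unfold bnd
    refine (Nat.floor_le (by positivity)).trans ?_
    have h3 : (2 * K) ≤ (n : ℝ) ^ 2 := by nlinarith
    calc (2 * K) ^ 100000 * (n : ℝ) ≤ ((n : ℝ) ^ 2) ^ 100000 * (n : ℝ) := by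
          apply mul_le_mul_of_nonneg_right _ hn0.le
          exact pow_le_pow_left₀ (by linarith) h3 _
      _ = (n : ℝ) ^ 200001 := by rw [← pow_mul, ← pow_succ]
      _ ≤ (n : ℝ) ^ 200002 := pow_le_pow_right₀ (by linarith) (by norm_num)
  rcases Nat.eq_zero_or_pos (bnd n K) with h0 | h0
  · rw [h0]
    simp only [Nat.cast_zero, Real.log_zero]
    positivity
  · have h3 := Real.log_le_log (by exact_mod_cast h0) h2
    rw [Real.log_pow] at h3
    have h4 : Real.log n ≤ (n : ℝ) ^ (c / 2) / (c / 2) := Real.log_le_rpow_div hn0.le (by linarith)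
    have e : (n : ℝ) ^ (c / 2) * (n : ℝ) ^ (c / 2) = (n : ℝ) ^ c := by
      rw [← Real.rpow_add hn0]
      congr 1
      ring
    have hp : (0 : ℝ) < (n : ℝ) ^ (c / 2) := by positivity
    calc Real.log (bnd n K) ≤ (200002 : ℕ) * Real.log n := h3
      _ ≤ (200002 : ℕ) * ((n : ℝ) ^ (c / 2) / (c / 2)) := by gcongr
      _ = (400004 / c) * (n : ℝ) ^ (c / 2) := by
          push_cast
          field_simp
          ring
      _ ≤ (n : ℝ) ^ (c / 2) * (n : ℝ) ^ (c / 2) := mul_le_mul_of_nonneg_right h1 hp.le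
      _ = (n : ℝ) ^ c := e

theorem bnd_le {n : ℕ} (hn2 : 4 ≤ n) {K : ℝ} (h : Real.log (bnd n K) ≤ (n : ℝ) ^ ((1 : ℝ) / 2)) :
    (bnd n K : ℝ) ≤ 2 ^ n := by
  have hnR : (4 : ℝ) ≤ n := by exact_mod_cast hn2
  have hn0 : (0 : ℝ) < n := by linarith
  rcases Nat.eq_zero_or_pos (bnd n K) with h0 | h0
  · rw [h0]
    simp only [Nat.cast_zero]
    positivity
  · rw [← Real.log_le_log_iff (by exact_mod_cast h0) (by positivity), Real.log_pow]
    refine h.trans ?_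
    set y : ℝ := (n : ℝ) ^ ((1 : ℝ) / 2) with hy
    have hy2 : y * y = n := by
      rw [hy, ← Real.rpow_add hn0]
      norm_num
    have hy0 : 0 ≤ y := by positivity
    have hy3 : 2 ≤ y := by nlinarith
    have := Real.log_two_gt_d9
    rw [← hy2]
    nlinarith

/-- the lift, with the parameters which are used here -/
theorem lift' {n : ℕ} {K : ℝ} {G : Type u} [AddCommGroup G] [DecidableEq G]
    (htf : ∀ (k : ℕ) (x : G), k ≠ 0 → k • x = 0 → x = 0) {A : Finset G} (hn : 1 ≤ n)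
    (hA : A.card = n) (hK : ((A + A).card : ℝ) ≤ K * n) :
    ∃ (m : ℕ) (φ : G → ZMod m), 0 < m ∧ m ≤ bnd n K ∧ IsoN 2 A φ ∧
      A.image (up φ) ⊆ Ico 0 (bnd n K : ℤ) ∧ (A.image (up φ)).card = n ∧
      (A.image (up φ) + A.image (up φ)).card ≤ 2 * (A + A).card ∧
      ((A.image (up φ) + A.image (up φ)).card : ℝ) ≤ (2 * K) * n ∧
      ∀ E : Finset (Finset ℤ), A.image (up φ) ∈ E → ∃ q ∈ fam (bnd n K) E, Has A q := by
  classical
  have hA0 : A.Nonempty := card_pos.1 (by omega)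
  obtain ⟨m, φ, hm, hmb, hφ, hc, hs, hr, hi⟩ := lift htf hA0 (by rwa [hA])
  have hmb' : m ≤ bnd n K := by
    unfold bnd
    apply Nat.le_floor
    rw [hA] at hmb
    exact hmb
  have hs' : ((A.image (up φ) + A.image (up φ)).card : ℝ) ≤ 2 * ((A + A).card : ℝ) := by
    exact_mod_cast hs
  refine ⟨m, φ, hm, hmb', hφ, ?_, by rw [hc, hA], hs, by linarith, ?_⟩
  · intro x hx
    have h1 := hr x hx
    have h2 : (m : ℤ) ≤ bnd n K := by exact_mod_cast hmb'
    rw [mem_Ico]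
    constructor <;> linarith
  · intro E hE
    refine ⟨⟨m, (A.image (up φ)).image (fun x : ℤ => (x : ZMod m))⟩, ?_, φ, ?_⟩
    · unfold fam
      rw [mem_image]
      refine ⟨(m, A.image (up φ)), ?_, rfl⟩
      rw [mem_product, mem_Icc]
      exact ⟨⟨hm, hmb'⟩, hE⟩
    · rw [hi]
      exact hφ.freiman le_rfl

/-- `A` has a large piece which is isomorphic to a subset of a proper progression of integers -/
def Concl (D M : ℝ) {G : Type u} [AddCommGroup G] [DecidableEq G] (A : Finset G) : Prop :=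
  ∃ (d : ℕ) (a : ℤ) (v : Fin d → ℤ) (N : Fin d → ℕ) (A' : Finset G) (B : Finset ℤ) (φ : G → ℤ),
    (d : ℝ) ≤ D ∧ Proper v N ∧ ∏ i, N i ≤ 3 * (A + A).card ∧ A' ⊆ A ∧
    (A.card : ℝ) ≤ M * A'.card ∧ IsAddFreimanIso 2 (A' : Set G) (B : Set ℤ) φ ∧
    (B : Set ℤ) ⊆ prog a v N

theorem Concl.mono {D D' M M' : ℝ} (hD : D ≤ D') (hM : M ≤ M') {G : Type u} [AddCommGroup G]
    [DecidableEq G] {A : Finset G} (h : Concl D M A) : Concl D' M' A := by
  obtain ⟨d, a, v, N, A', B, φ, h1, h2, h3, h4, h5, h6, h7⟩ := h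
  exact ⟨d, a, v, N, A', B, φ, h1.trans hD, h2, h3, h4,
    h5.trans (mul_le_mul_of_nonneg_right hM (Nat.cast_nonneg _)), h6, h7⟩

theorem transfer {n : ℕ} (hn : 1 ≤ n) {K D M : ℝ} (hM : 0 ≤ M) {E : Finset (Finset ℤ)}
    (hE : ∀ B ⊆ Ico 0 (bnd n K : ℤ), B.card = n → ((B + B).card : ℝ) ≤ (2 * K) * n → B ∉ E →
      Dense D M B)
    {G : Type u} [AddCommGroup G] [DecidableEq G]
    (htf : ∀ (k : ℕ) (x : G), k ≠ 0 → k • x = 0 → x = 0) {A : Finset G} (hA : A.card = n)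
    (hAK : ((A + A).card : ℝ) ≤ K * n) (hno : ∀ q ∈ fam (bnd n K) E, ¬ Has A q) :
    Concl D (4 * M) A := by
  obtain ⟨m, φ, hm, hmb, hφ, hsub, hc1, hs1', hs2, hfam⟩ := lift' htf hn hA hAK
  have hBE : A.image (up φ) ∉ E := by
    intro hin
    obtain ⟨q, hq, hq'⟩ := hfam E hin
    exact hno q hq hq'
  obtain ⟨d, a, v, N, B₁, hd1, hN, hprop, hvol, hB₁, hB₁P, hdens⟩ := hE _ hsub hc1 hs2 hBE
  obtain ⟨A', B', hA', hB', hcard, hiso⟩ := quarter hm hφ hB₁
  refine ⟨d, a, v, N, A', B', up φ, hd1, hprop, ?_, hA', ?_, hiso,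
    fun x hx => hB₁P (mem_coe.2 (hB' (mem_coe.1 hx)))⟩
  · omega
  · rw [hc1, ← hA] at hdens
    have h1 : (B₁.card : ℝ) ≤ 4 * A'.card := by exact_mod_cast hcard
    calc (A.card : ℝ) ≤ M * B₁.card := hdens
      _ ≤ M * (4 * A'.card) := by gcongr
      _ = 4 * M * A'.card := by ring

/-- the numerical conditions on `n` -/
theorem large {c δ : ℝ} (hc : 0 < c) (hδ : 0 < δ) (n₁ : ℕ) : ∃ n₀ : ℕ, ∀ (n : ℕ) (K : ℝ), n₀ ≤ n →
    1 ≤ K → K ≤ (n : ℝ) ^ (1 - δ) →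
    n₁ ≤ n ∧ 1 ≤ n ∧ 2 * K ≤ (n : ℝ) ^ (1 - δ / 2) ∧ (bnd n K : ℝ) ≤ 2 ^ n ∧
      Real.log (Ico 0 (bnd n K : ℤ)).card ≤ (n : ℝ) ^ c := by
  refine ⟨max (max (max n₁ 4) ⌈(400004 / c) ^ (2 / c)⌉₊)
    (max ⌈(400004 / ((1 : ℝ) / 2)) ^ (2 / ((1 : ℝ) / 2))⌉₊ ⌈(2 : ℝ) ^ (2 / δ)⌉₊), ?_⟩
  intro n K hn hK1 hK
  simp only [max_le_iff] at hn
  obtain ⟨⟨⟨ha, hb⟩, hc'⟩, hd, he⟩ := hn
  have hc'' : (400004 / c) ^ (2 / c) ≤ (n : ℝ) := (Nat.le_ceil _).trans (by exact_mod_cast hc')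
  have hd' : (400004 / ((1 : ℝ) / 2)) ^ (2 / ((1 : ℝ) / 2)) ≤ (n : ℝ) :=
    (Nat.le_ceil _).trans (by exact_mod_cast hd)
  have he' : (2 : ℝ) ^ (2 / δ) ≤ (n : ℝ) := (Nat.le_ceil _).trans (by exact_mod_cast he)
  have hnR : (4 : ℝ) ≤ n := by exact_mod_cast hb
  have hn0 : (0 : ℝ) < n := by linarith
  have hKn : K ≤ n := by
    refine hK.trans ?_
    conv_rhs => rw [← Real.rpow_one (n : ℝ)]
    exact Real.rpow_le_rpow_of_exponent_le (by linarith) (by linarith)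
  have h2K : 2 * K ≤ (n : ℝ) ^ (1 - δ / 2) := by
    have e1 : (n : ℝ) ^ (1 - δ) * (n : ℝ) ^ (δ / 2) = (n : ℝ) ^ (1 - δ / 2) := by
      rw [← Real.rpow_add hn0]
      congr 1
      ring
    have e2 : 2 ≤ (n : ℝ) ^ (δ / 2) := by
      have e : ((2 : ℝ) ^ (2 / δ)) ^ (δ / 2) = 2 := by
        rw [← Real.rpow_mul (by positivity)]
        have : 2 / δ * (δ / 2) = 1 := by field_simp
        rw [this, Real.rpow_one]
      conv_lhs => rw [← e]
      exact Real.rpow_le_rpow (by positivity) he' (by positivity)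
    rw [← e1, mul_comm]
    exact mul_le_mul hK e2 (by norm_num) (by positivity)
  refine ⟨ha, by omega, h2K, bnd_le hb (logM (by norm_num) (by omega) hd' hK1 hKn), ?_⟩
  rw [Int.card_Ico]
  simpa using logM hc (by omega) hc'' hK1 hKn

theorem tfZ (k : ℕ) (x : ℤ) (hk : k ≠ 0) (hx : k • x = 0) : x = 0 := by
  rcases smul_eq_zero.1 hx with h | h
  · exact absurd h hk
  · exact h

/-- the number of types -/
theorem main (δ : ℝ) (hδ : 0 < δ) : ∃ n₀ : ℕ, ∀ (n : ℕ) (K : ℝ), n₀ ≤ n → 1 ≤ K →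
    K ≤ (n : ℝ) ^ (1 - δ) →
    ∃ F : Finset Typ, (F.card : ℝ) ≤ (120 * K) ^ n ∧
      ∀ {G : Type u} [AddCommGroup G] [DecidableEq G]
        (_ : ∀ (k : ℕ) (x : G), k ≠ 0 → k • x = 0 → x = 0) (A : Finset G), A.card = n →
        ((A + A).card : ℝ) ≤ K * n → ∃ q ∈ F, Has A q := by
  classical
  obtain ⟨c, hc, n₁, h⟩ := count_all (δ / 2) (half_pos hδ)
  obtain ⟨n₀, hn₀⟩ := large hc hδ n₁
  refine ⟨n₀, fun n K hn hK1 hK => ?_⟩
  obtain ⟨ha, hb, h2K, hM, hX⟩ := hn₀ n K hn hK1 hK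
  set X : Finset ℤ := Ico 0 (bnd n K : ℤ) with hXd
  set E := (X.powersetCard n).filter (fun B => ((B + B).card : ℝ) ≤ (2 * K) * n) with hE
  have hEc := h X n (2 * K) ha hX (by linarith) h2K
  refine ⟨fam (bnd n K) E, ?_, ?_⟩
  · have h1 : ((fam (bnd n K) E).card : ℝ) ≤ (bnd n K : ℝ) * E.card := by
      exact_mod_cast fam_card (bnd n K) E
    refine h1.trans ?_
    have he : Real.exp 1 ^ 2 ≤ 7.5 := by
      have := Real.exp_one_lt_d9
      have := Real.exp_pos 1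
      nlinarith
    calc (bnd n K : ℝ) * E.card ≤ 2 ^ n * (4 * Real.exp 1 ^ 2 * (2 * K)) ^ n := by gcongr
      _ = (16 * Real.exp 1 ^ 2 * K) ^ n := by
          rw [← mul_pow]
          congr 1
          ring
      _ ≤ (120 * K) ^ n := by
          apply pow_le_pow_left₀ (by positivity)
          nlinarith
  · intro G _ _ htf A hA hAK
    obtain ⟨m, φ, hm, hmb, hφ, hsub, hc1, hs1, hs2, hfam⟩ := lift' htf hb hA hAK
    apply hfam
    rw [hE, mem_filter, mem_powersetCard]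
    exact ⟨⟨hsub, hc1⟩, hs2⟩

/-- almost all types, with a parameter -/
theorem almostQ : ∃ C : ℝ, 1 ≤ C ∧ ∀ δ : ℝ, 0 < δ → ∃ n₀ : ℕ, ∀ (n : ℕ) (K Q : ℝ), n₀ ≤ n →
    1 ≤ Q → Q ≤ K → K ≤ (n : ℝ) ^ (1 - δ) →
    ∃ F : Finset Typ, (F.card : ℝ) ≤ (C * K / Q) ^ n ∧
      ∀ {G : Type u} [AddCommGroup G] [DecidableEq G]
        (_ : ∀ (k : ℕ) (x : G), k ≠ 0 → k • x = 0 → x = 0) (A : Finset G), A.card = n →
        ((A + A).card : ℝ) ≤ K * n → (∀ q ∈ F, ¬ Has A q) →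
        Concl (C * Real.log (2 * Q)) ((2 * Q) ^ (C * (1 + Real.log (1 + Real.log (2 * Q))))) A := by
  classical
  obtain ⟨C, hC, hlib⟩ := Pool.Agent.Results.MP_86f7a7_co.AlmostAllSets.result.1
  refine ⟨4 * C, by linarith, fun δ hδ => ?_⟩
  obtain ⟨c, hc, n₁, h⟩ := hlib (δ / 2) (half_pos hδ)
  obtain ⟨n₀, hn₀⟩ := large hc hδ n₁
  refine ⟨n₀, fun n K Q hn hQ1 hQK hK => ?_⟩
  obtain ⟨ha, hb, h2K, hM, hX⟩ := hn₀ n K hn (hQ1.trans hQK) hK
  obtain ⟨E, hEc, hE⟩ := h (Γ := ℤ) tfZ (Ico 0 (bnd n K : ℤ)) n (2 * K) Q ha hX hQ1 (by linarith) h2K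
  have hQ0 : 0 < Q := by linarith
  have hK0 : 0 < K := by linarith
  refine ⟨fam (bnd n K) E, ?_, ?_⟩
  · have h1 : ((fam (bnd n K) E).card : ℝ) ≤ (bnd n K : ℝ) * E.card := by
      exact_mod_cast fam_card (bnd n K) E
    refine h1.trans ?_
    calc (bnd n K : ℝ) * E.card ≤ 2 ^ n * (C * (2 * K) / Q) ^ n := by gcongr
      _ = (4 * C * K / Q) ^ n := by
          rw [← mul_pow]
          congr 1
          ring
  · intro G _ _ htf A hA hAK hno
    have hQ2 : (0 : ℝ) < 2 * Q := by linarith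
    have hl : 0 ≤ Real.log (2 * Q) := Real.log_nonneg (by linarith)
    have hll : 0 ≤ Real.log (1 + Real.log (2 * Q)) := Real.log_nonneg (by linarith)
    refine (transfer hb (by positivity) hE htf hA hAK hno).mono
      (mul_le_mul_of_nonneg_right (by linarith) hl) ?_
    have h4 : (4 : ℝ) ≤ (2 * Q) ^ (3 * C * (1 + Real.log (1 + Real.log (2 * Q)))) := by
      calc (4 : ℝ) ≤ 2 ^ (3 : ℝ) := by norm_num
        _ ≤ (2 * Q) ^ (3 : ℝ) := Real.rpow_le_rpow (by norm_num) (by linarith) (by norm_num)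
        _ ≤ _ := by
            apply Real.rpow_le_rpow_of_exponent_le (by linarith)
            have : 1 ≤ C * (1 + Real.log (1 + Real.log (2 * Q))) := by
              calc (1 : ℝ) = 1 * 1 := by ring
                _ ≤ C * (1 + Real.log (1 + Real.log (2 * Q))) :=
                  mul_le_mul hC (by linarith) (by norm_num) (by linarith)
            linarith
    calc 4 * (2 * Q) ^ (C * (1 + Real.log (1 + Real.log (2 * Q))))
        ≤ (2 * Q) ^ (3 * C * (1 + Real.log (1 + Real.log (2 * Q)))) *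
          (2 * Q) ^ (C * (1 + Real.log (1 + Real.log (2 * Q)))) := by gcongr
      _ = (2 * Q) ^ (4 * C * (1 + Real.log (1 + Real.log (2 * Q)))) := by
          rw [← Real.rpow_add hQ2]
          congr 1
          ring

/-- almost all types -/
theorem almost : ∃ C : ℝ, 1 ≤ C ∧ ∀ δ : ℝ, 0 < δ → ∃ n₀ : ℕ, ∀ (n : ℕ) (K : ℝ), n₀ ≤ n → 1 ≤ K →
    K ≤ (n : ℝ) ^ (1 - δ) →
    ∃ F : Finset Typ,
      (F.card : ℝ) ≤ (C * K ^ (1 - 1 / (1 + Real.log (1 + Real.log (4 * K))))) ^ n ∧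
      ∀ {G : Type u} [AddCommGroup G] [DecidableEq G]
        (_ : ∀ (k : ℕ) (x : G), k ≠ 0 → k • x = 0 → x = 0) (A : Finset G), A.card = n →
        ((A + A).card : ℝ) ≤ K * n → (∀ q ∈ F, ¬ Has A q) →
        Concl (C * Real.log (4 * K) / (1 + Real.log (1 + Real.log (4 * K)))) (C * K ^ C) A := by
  classical
  obtain ⟨C, hC, hlib⟩ := Pool.Agent.Results.MP_86f7a7_co.AlmostAllSets.result.2.1
  have h2C : (1 : ℝ) ≤ 2 ^ C := Real.one_le_rpow (by norm_num) (by linarith)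
  have hCC : C ≤ 4 * C * 2 ^ C := by nlinarith
  refine ⟨4 * C * 2 ^ C, by linarith, fun δ hδ => ?_⟩
  obtain ⟨c, hc, n₁, h⟩ := hlib (δ / 2) (half_pos hδ)
  obtain ⟨n₀, hn₀⟩ := large hc hδ n₁
  refine ⟨n₀, fun n K hn hK1 hK => ?_⟩
  obtain ⟨ha, hb, h2K, hM, hX⟩ := hn₀ n K hn hK1 hK
  obtain ⟨E, hEc, hE⟩ := h (Γ := ℤ) tfZ (Ico 0 (bnd n K : ℤ)) n (2 * K) ha hX (by linarith) h2K
  have hK0 : 0 < K := by linarith
  have e4 : 2 * (2 * K) = 4 * K := by ring
  rw [e4] at hEc hE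
  set s : ℝ := 1 + Real.log (1 + Real.log (4 * K)) with hs
  have hlog4 : 0 ≤ Real.log (4 * K) := Real.log_nonneg (by linarith)
  have hs1 : 1 ≤ s := by
    rw [hs]
    have := Real.log_nonneg (show (1 : ℝ) ≤ 1 + Real.log (4 * K) by linarith)
    linarith
  refine ⟨fam (bnd n K) E, ?_, ?_⟩
  · have h1 : ((fam (bnd n K) E).card : ℝ) ≤ (bnd n K : ℝ) * E.card := by
      exact_mod_cast fam_card (bnd n K) E
    refine h1.trans ?_
    have h3 : (2 * K) ^ (1 - 1 / s) ≤ 2 * K ^ (1 - 1 / s) := by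
      rw [Real.mul_rpow (by norm_num) hK0.le]
      apply mul_le_mul_of_nonneg_right _ (by positivity)
      calc (2 : ℝ) ^ (1 - 1 / s) ≤ 2 ^ (1 : ℝ) := by
            apply Real.rpow_le_rpow_of_exponent_le (by norm_num)
            have : 0 < 1 / s := by positivity
            linarith
        _ = 2 := Real.rpow_one 2
    calc (bnd n K : ℝ) * E.card ≤ 2 ^ n * (C * (2 * K) ^ (1 - 1 / s)) ^ n := by gcongr
      _ = (2 * (C * (2 * K) ^ (1 - 1 / s))) ^ n := by rw [← mul_pow]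
      _ ≤ (4 * C * 2 ^ C * K ^ (1 - 1 / s)) ^ n := by
          apply pow_le_pow_left₀ (by positivity)
          have h5 : 0 ≤ K ^ (1 - 1 / s) := by positivity
          calc 2 * (C * (2 * K) ^ (1 - 1 / s)) ≤ 2 * (C * (2 * K ^ (1 - 1 / s))) := by gcongr
            _ = 4 * C * K ^ (1 - 1 / s) := by ring
            _ ≤ 4 * C * 2 ^ C * K ^ (1 - 1 / s) := by
                apply mul_le_mul_of_nonneg_right _ h5
                nlinarith
  · intro G _ _ htf A hA hAK hno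
    refine (transfer hb (by positivity) hE htf hA hAK hno).mono (by gcongr) ?_
    calc 4 * (C * (2 * K) ^ C) = 4 * C * 2 ^ C * K ^ C := by
          rw [Real.mul_rpow (by norm_num) hK0.le]
          ring
      _ ≤ 4 * C * 2 ^ C * K ^ (4 * C * 2 ^ C) := by gcongr

end Pool.Agent.H602.TY
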